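import Mathlib
import Pool.Agent.Lib_helper79.Gap.Defs3

/-!
# Coefficient extraction: basic lemmas
-/

set_option autoImplicit false

open Finset Filter Topology MeasureTheory

namespace Pool.Agent.Gap

/-- `x ^ (3/2)` -/
noncomputable def tq (x : ℝ) : ℝ := x * Real.sqrt x

lemma tq_nonneg {x : ℝ} (hx : 0 ≤ x) : 0 ≤ tq x := mul_nonneg hx (Real.sqrt_nonneg _)

lemma tq_pos {x : ℝ} (hx : 0 < x) : 0 < tq x := mul_pos hx (Real.sqrt_pos.2 hx)

lemma tq_mono {x y : ℝ} (hx : 0 ≤ x) (hxy : x ≤ y) : tq x ≤ tq y :=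
  mul_le_mul hxy (Real.sqrt_le_sqrt hxy) (Real.sqrt_nonneg _) (hx.trans hxy)

lemma tq_mul {x y : ℝ} (hx : 0 ≤ x) (_hy : 0 ≤ y) : tq (x * y) = tq x * tq y := by
  unfold tq
  rw [Real.sqrt_mul hx]
  ring

lemma zn_pow (rho : ℝ) (w : ℂ) (n m : ℕ) :
    zn rho w n ^ m = ((rho ^ m : ℝ) : ℂ) * Complex.exp (-((m : ℂ) * w / n)) := by
  unfold zn
  rw [mul_pow, ← Complex.exp_nat_mul]
  push_cast
  congr 2
  ring

lemma norm_zn {rho : ℝ} (hrho : 0 < rho) (w : ℂ) (n : ℕ) :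
    ‖zn rho w n‖ = rho * Real.exp (-(w.re / n)) := by
  unfold zn
  rw [norm_mul, Complex.norm_exp, Complex.norm_real, Real.norm_eq_abs, abs_of_pos hrho]
  congr 2
  simp [Complex.neg_re, Complex.div_natCast_re]

lemma norm_zn_lt {rho : ℝ} (hrho : 0 < rho) {w : ℂ} (hw : 0 < w.re) {n : ℕ} (hn : 1 ≤ n) :
    ‖zn rho w n‖ < rho := by
  rw [norm_zn hrho]
  have hn' : (0 : ℝ) < n := by exact_mod_cast hn
  have : Real.exp (-(w.re / n)) < 1 := Real.exp_lt_one_iff.2 (by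
    have := div_pos hw hn'
    linarith)
  calc rho * Real.exp (-(w.re / n)) < rho * 1 := mul_lt_mul_of_pos_left this hrho
    _ = rho := mul_one _

/-- summability of the marked series inside the disc -/
def SumHyp (rho : ℝ) (a : ℕ → ℝ) : Prop := ∀ z : ℂ, ‖z‖ < rho → ∀ j : ℕ,
  Summable fun m : ℕ => ‖((m : ℂ)) ^ j * ((a m : ℝ) : ℂ) * z ^ m‖

lemma hasDerivAt_zn (rho : ℝ) (n : ℕ) (w : ℂ) :
    HasDerivAt (fun u => zn rho u n) (-(1 / (n : ℂ)) * zn rho w n) w := by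
  have h1 : HasDerivAt (fun u : ℂ => -(u / (n : ℂ))) (-(1 / (n : ℂ))) w :=
    ((hasDerivAt_id w).div_const _).neg
  have h2 : HasDerivAt (fun u : ℂ => (rho : ℂ) * Complex.exp (-(u / (n : ℂ))))
      ((rho : ℂ) * (Complex.exp (-(w / (n : ℂ))) * (-(1 / (n : ℂ))))) w :=
    (h1.cexp).const_mul (rho : ℂ)
  have h3 : (rho : ℂ) * (Complex.exp (-(w / (n : ℂ))) * (-(1 / (n : ℂ)))) =
      -(1 / (n : ℂ)) * zn rho w n := by
    unfold zn
    ring
  rw [← h3]
  exact h2

/-- derivative of the marked series along `w` -/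
lemma hasDerivAt_sgf {rho : ℝ} (hrho : 0 < rho) {a : ℕ → ℝ} (ha : SumHyp rho a) (j : ℕ) {n : ℕ}
    (hn : 1 ≤ n) {w : ℂ} (hw : 0 < w.re) :
    HasDerivAt (fun u => sgf j a (zn rho u n))
      (-(1 / (n : ℂ)) * sgf (j + 1) a (zn rho w n)) w := by
  have hn' : (0 : ℝ) < n := by exact_mod_cast hn
  set r0 : ℝ := w.re / 2 with hr0
  have hr0pos : 0 < r0 := by rw [hr0]; linarith
  set t : Set ℂ := {u | r0 < u.re} with ht
  have htopen : IsOpen t := isOpen_lt continuous_const Complex.continuous_re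
  have htconv : Convex ℝ t := (convex_halfSpace_re_gt r0)
  have hwt : w ∈ t := by
    change r0 < w.re
    rw [hr0]; linarith
  set z0 : ℂ := zn rho (r0 : ℂ) n with hz0
  have hz0lt : ‖z0‖ < rho := norm_zn_lt hrho (by simpa using hr0pos) hn
  have hsum : Summable fun m : ℕ => ‖(1 / (n : ℂ))‖ *
      ‖((m : ℂ)) ^ (j + 1) * ((a m : ℝ) : ℂ) * z0 ^ m‖ := (ha z0 hz0lt (j + 1)).mul_left _
  have hle : ∀ u ∈ t, ‖zn rho u n‖ ≤ ‖z0‖ := by
    intro u hu
    rw [norm_zn hrho, hz0, norm_zn hrho]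
    have hu' : r0 < u.re := hu
    have : (r0 : ℂ).re = r0 := Complex.ofReal_re r0
    rw [this]
    gcongr
  have key := hasDerivAt_tsum_of_isPreconnected (𝕜 := ℂ) (F := ℂ)
    (g := fun (m : ℕ) (u : ℂ) => ((m : ℂ)) ^ j * ((a m : ℝ) : ℂ) * zn rho u n ^ m)
    (g' := fun (m : ℕ) (u : ℂ) => -(1 / (n : ℂ)) *
      (((m : ℂ)) ^ (j + 1) * ((a m : ℝ) : ℂ) * zn rho u n ^ m))
    (y₀ := w) (y := w) hsum htopen htconv.isPreconnected ?_ ?_ hwt ?_ hwt
  · unfold sgf
    rw [← tsum_mul_left]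
    exact key
  · intro m u _
    have h1 : HasDerivAt (fun u => ((m : ℂ)) ^ j * ((a m : ℝ) : ℂ) * zn rho u n ^ m)
        (((m : ℂ)) ^ j * ((a m : ℝ) : ℂ) * ((m : ℂ) * zn rho u n ^ (m - 1) *
          (-(1 / (n : ℂ)) * zn rho u n))) u :=
      ((hasDerivAt_zn rho n u).pow m).const_mul (((m : ℂ)) ^ j * ((a m : ℝ) : ℂ))
    have h2 : ((m : ℂ)) ^ j * ((a m : ℝ) : ℂ) * ((m : ℂ) * zn rho u n ^ (m - 1) *
          (-(1 / (n : ℂ)) * zn rho u n)) = -(1 / (n : ℂ)) *
      (((m : ℂ)) ^ (j + 1) * ((a m : ℝ) : ℂ) * zn rho u n ^ m) := by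
      rcases Nat.eq_zero_or_pos m with rfl | hm
      · simp
      · obtain ⟨k, rfl⟩ : ∃ k, m = k + 1 := ⟨m - 1, by omega⟩
        simp only [Nat.add_sub_cancel, pow_succ]
        ring
    rw [← h2]
    exact h1
  · intro m u hu
    rw [norm_mul, norm_neg]
    apply mul_le_mul_of_nonneg_left _ (norm_nonneg _)
    rw [norm_mul, norm_mul _ (z0 ^ m)]
    apply mul_le_mul_of_nonneg_left _ (norm_nonneg _)
    rw [norm_pow, norm_pow]
    exact pow_le_pow_left₀ (norm_nonneg _) (hle u hu) m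
  · exact (ha _ (norm_zn_lt hrho hw hn) j).of_norm

/-- the continuous function of `τ` -/
lemma continuous_sgf_line {rho : ℝ} (hrho : 0 < rho) {a : ℕ → ℝ} (ha : SumHyp rho a) (j : ℕ)
    {n : ℕ} (hn : 1 ≤ n) :
    Continuous fun τ : ℝ => sgf j a (zn rho (1 + τ * Complex.I) n) := by
  rw [continuous_iff_continuousAt]
  intro τ
  have h1 : ContinuousAt (fun u => sgf j a (zn rho u n)) (1 + τ * Complex.I) :=
    (hasDerivAt_sgf hrho ha j hn (by simp)).continuousAt
  have h2 : ContinuousAt (fun τ : ℝ => (1 + τ * Complex.I : ℂ)) τ := by fun_prop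
  exact ContinuousAt.comp (f := fun τ : ℝ => (1 + τ * Complex.I : ℂ)) h1 h2

/-- the integrand -/
noncomputable def gN (rho : ℝ) (a : ℕ → ℝ) (n : ℕ) (τ : ℝ) : ℂ :=
  (Set.Ioc (-(Real.pi * n)) (Real.pi * n)).indicator
    (fun τ : ℝ => ((tq n)⁻¹ : ℝ) * sgf 2 a (zn rho (1 + τ * Complex.I) n) *
      Complex.exp (τ * Complex.I)) τ

lemma aesm_gN {rho : ℝ} (hrho : 0 < rho) {a : ℕ → ℝ} (ha : SumHyp rho a) {n : ℕ} (hn : 1 ≤ n) :
    AEStronglyMeasurable (gN rho a n) volume := by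
  unfold gN
  apply AEStronglyMeasurable.indicator _ measurableSet_Ioc
  apply Continuous.aestronglyMeasurable
  have := continuous_sgf_line hrho ha 2 hn
  fun_prop

/-- orthogonality of the exponentials -/
lemma integral_orth {n : ℕ} (hn : 1 ≤ n) (m : ℕ) :
    ∫ τ : ℝ in (-(Real.pi * n))..(Real.pi * n),
      Complex.exp (-((m : ℂ) * (1 + τ * Complex.I) / n)) * Complex.exp (τ * Complex.I) =
    if m = n then ((2 * Real.pi * n : ℝ) : ℂ) * Complex.exp (-1) else 0 := by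
  have hn0 : (n : ℂ) ≠ 0 := by exact_mod_cast (by omega : n ≠ 0)
  have h1 : ∀ τ : ℝ, Complex.exp (-((m : ℂ) * (1 + τ * Complex.I) / n)) *
      Complex.exp (τ * Complex.I) = Complex.exp (-((m : ℂ) / n)) *
      Complex.exp ((Complex.I * (1 - (m : ℂ) / n)) * τ) := by
    intro τ
    rw [← Complex.exp_add, ← Complex.exp_add]
    congr 1
    field_simp
    ring
  simp only [h1]
  rw [intervalIntegral.integral_const_mul]
  split_ifs with h
  · subst h
    rw [div_self hn0, sub_self, mul_zero]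
    simp only [zero_mul, Complex.exp_zero]
    rw [intervalIntegral.integral_const]
    rw [mul_comm]
    congr 1
    rw [Complex.real_smul, mul_one]
    congr 1
    ring
  · have hne : Complex.I * (1 - (m : ℂ) / n) ≠ 0 := by
      apply mul_ne_zero Complex.I_ne_zero
      rw [sub_ne_zero]
      intro h2
      apply h
      rw [eq_div_iff hn0, one_mul] at h2
      exact_mod_cast h2.symm
    rw [integral_exp_mul_complex hne]
    have h3 : Complex.exp (Complex.I * (1 - (m : ℂ) / n) * ((Real.pi * n : ℝ) : ℂ)) =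
        Complex.exp (Complex.I * (1 - (m : ℂ) / n) * ((-(Real.pi * n) : ℝ) : ℂ)) := by
      rw [Complex.exp_eq_exp_iff_exists_int]
      refine ⟨(n : ℤ) - m, ?_⟩
      push_cast
      field_simp
      ring
    rw [h3, sub_self, zero_div, mul_zero]

/-- **coefficient extraction** -/
lemma extract {rho : ℝ} (hrho : 0 < rho) {a : ℕ → ℝ} (ha : SumHyp rho a) {n : ℕ} (hn : 1 ≤ n) :
    ∫ τ : ℝ, gN rho a n τ =
      ((2 * Real.pi * (tq n * rho ^ n * a n) : ℝ) : ℂ) * Complex.exp (-1) := by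
  have hn' : (0 : ℝ) < n := by exact_mod_cast hn
  have hpn : -(Real.pi * n) ≤ Real.pi * n := by
    have : 0 < Real.pi * n := mul_pos Real.pi_pos hn'
    linarith
  set I : Set ℝ := Set.Ioc (-(Real.pi * n)) (Real.pi * n) with hI
  let F : ℕ → ℝ → ℂ := fun m τ => ((m : ℂ)) ^ 2 * ((a m : ℝ) : ℂ) *
    zn rho (1 + τ * Complex.I) n ^ m * Complex.exp (τ * Complex.I)
  have hFn : ∀ m τ, ‖F m τ‖ = ‖((m : ℂ)) ^ 2 * ((a m : ℝ) : ℂ) * zn rho 1 n ^ m‖ := by
    intro m τ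
    simp only [F]
    rw [norm_mul, Complex.norm_exp_ofReal_mul_I, mul_one, norm_mul, norm_mul _ (zn rho 1 n ^ m),
      norm_pow (zn rho _ n), norm_pow (zn rho 1 n), norm_zn hrho, norm_zn hrho]
    simp
  have hFint : ∀ m, Integrable (F m) (volume.restrict I) := by
    intro m
    have hcont : Continuous (F m) := by
      simp only [F]
      unfold zn
      fun_prop
    exact (hcont.integrableOn_Icc (a := -(Real.pi * n)) (b := Real.pi * n)).mono_set
      Set.Ioc_subset_Icc_self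
  have hvol : (volume.restrict I).real Set.univ = 2 * Real.pi * n := by
    rw [Measure.real, Measure.restrict_apply_univ, hI, Real.volume_Ioc, ENNReal.toReal_ofReal]
    · ring
    · linarith
  have hsum : Summable fun m => ∫ τ, ‖F m τ‖ ∂(volume.restrict I) := by
    simp only [hFn]
    have : ∀ m : ℕ, ∫ _τ : ℝ, ‖((m : ℂ)) ^ 2 * ((a m : ℝ) : ℂ) * zn rho 1 n ^ m‖
        ∂(volume.restrict I) =
        (2 * Real.pi * n) * ‖((m : ℂ)) ^ 2 * ((a m : ℝ) : ℂ) * zn rho 1 n ^ m‖ := by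
      intro m
      rw [integral_const, hvol, smul_eq_mul]
    simp only [this]
    exact (ha _ (norm_zn_lt hrho (by simp) hn) 2).mul_left _
  have hS := hasSum_integral_of_summable_integral_norm hFint hsum
  have hterm : ∀ m, ∫ τ, F m τ ∂(volume.restrict I) =
      if m = n then ((n : ℂ)) ^ 2 * ((a n : ℝ) : ℂ) * ((rho ^ n : ℝ) : ℂ) *
        (((2 * Real.pi * n : ℝ) : ℂ) * Complex.exp (-1)) else 0 := by
    intro m
    have h1 : ∀ τ : ℝ, F m τ = (((m : ℂ)) ^ 2 * ((a m : ℝ) : ℂ) * ((rho ^ m : ℝ) : ℂ)) *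
        (Complex.exp (-((m : ℂ) * (1 + τ * Complex.I) / n)) * Complex.exp (τ * Complex.I)) := by
      intro τ
      simp only [F]
      rw [zn_pow]
      ring
    simp only [h1]
    rw [integral_const_mul, hI, ← intervalIntegral.integral_of_le hpn, integral_orth hn]
    split_ifs with h
    · subst h; rfl
    · simp
  have hS2 : HasSum (fun m => ∫ τ, F m τ ∂(volume.restrict I))
      (((n : ℂ)) ^ 2 * ((a n : ℝ) : ℂ) * ((rho ^ n : ℝ) : ℂ) *
        (((2 * Real.pi * n : ℝ) : ℂ) * Complex.exp (-1))) := by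
    simp only [hterm]
    exact hasSum_ite_eq n _
  have hval := hS.unique hS2
  have hts : ∀ τ : ℝ, ∑' m, F m τ =
      sgf 2 a (zn rho (1 + τ * Complex.I) n) * Complex.exp (τ * Complex.I) := by
    intro τ
    simp only [F]
    rw [tsum_mul_right]
    rfl
  have hg : ∀ τ, gN rho a n τ = I.indicator (fun τ : ℝ => ((tq n)⁻¹ : ℝ) *
      (∑' m, F m τ)) τ := by
    intro τ
    unfold gN
    congr 1
    funext τ
    rw [hts]
    ring
  simp only [hg]
  rw [integral_indicator measurableSet_Ioc, integral_const_mul, hval]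
  have htq : tq n * tq n = (n : ℝ) ^ 3 := by
    unfold tq
    have := Real.mul_self_sqrt hn'.le
    calc (n : ℝ) * √n * (n * √n) = (n : ℝ) ^ 2 * (√n * √n) := by ring
      _ = (n : ℝ) ^ 3 := by rw [this]; ring
  have htq0 : tq n ≠ 0 := (tq_pos hn').ne'
  have h3 : (tq n)⁻¹ * (n : ℝ) ^ 3 = tq n := by
    rw [← htq, ← mul_assoc, inv_mul_cancel₀ htq0, one_mul]
  have h4 : (((tq n)⁻¹ : ℝ) : ℂ) * ((n : ℂ) ^ 3) = ((tq n : ℝ) : ℂ) := by
    have h5 := congrArg (fun x : ℝ => (x : ℂ)) h3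
    push_cast at h5
    push_cast
    exact h5
  push_cast
  push_cast at h4
  linear_combination (2 * (Real.pi : ℂ) * (rho : ℂ) ^ n * (a n : ℂ) * Complex.exp (-1)) * h4

end Pool.Agent.Gap
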