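import Mathlib
import Pool.Agent.Lib_helper84.Gap.XBasic

/-!
# Coefficient extraction: bounds and limits
-/

set_option autoImplicit false

open Finset Filter Topology MeasureTheory

namespace Pool.Agent.Gap

/-- lower bound of `1 - e^{-w/n}` on the whole circle -/
lemma norm_one_sub_exp_ge {n : ℕ} (hn : 1 ≤ n) {τ : ℝ} (hτ : |τ| ≤ Real.pi * n) :
    ‖(1 + τ * Complex.I : ℂ)‖ / (3 * n) ≤ ‖1 - Complex.exp (-((1 + τ * Complex.I : ℂ) / n))‖ := by
  have hn' : (0 : ℝ) < n := by exact_mod_cast hn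
  have hn1 : (1 : ℝ) ≤ n := by exact_mod_cast hn
  set x : ℝ := 1 / n with hx
  set y : ℝ := τ / n with hy
  have hx0 : 0 < x := by rw [hx]; positivity
  have hx1 : x ≤ 1 := by rw [hx, div_le_one hn']; exact hn1
  have hyabs : |y| ≤ Real.pi := by
    rw [hy, abs_div, abs_of_pos hn', div_le_iff₀ hn']
    exact hτ
  have hw : (1 + τ * Complex.I : ℂ) / n = (x : ℂ) + (y : ℂ) * Complex.I := by
    rw [hx, hy]
    push_cast
    ring
  have hE : Complex.exp (-((x : ℂ) + (y : ℂ) * Complex.I)) =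
      ((Real.exp (-x) * Real.cos y : ℝ) : ℂ) - ((Real.exp (-x) * Real.sin y : ℝ) : ℂ) * Complex.I := by
    have h1 : -((x : ℂ) + (y : ℂ) * Complex.I) = ((-x : ℝ) : ℂ) + ((-y : ℝ) : ℂ) * Complex.I := by
      push_cast; ring
    rw [h1, Complex.exp_add_mul_I, ← Complex.ofReal_exp, ← Complex.ofReal_cos,
      ← Complex.ofReal_sin, Real.cos_neg, Real.sin_neg]
    push_cast
    ring
  have hsq : ‖1 - Complex.exp (-((1 + τ * Complex.I : ℂ) / n))‖ ^ 2 =
      (1 - Real.exp (-x)) ^ 2 + 2 * Real.exp (-x) * (1 - Real.cos y) := by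
    rw [hw, hE, ← Complex.normSq_eq_norm_sq]
    have h2 : (1 : ℂ) - (((Real.exp (-x) * Real.cos y : ℝ) : ℂ) -
        ((Real.exp (-x) * Real.sin y : ℝ) : ℂ) * Complex.I) =
        ((1 - Real.exp (-x) * Real.cos y : ℝ) : ℂ) +
          ((Real.exp (-x) * Real.sin y : ℝ) : ℂ) * Complex.I := by
      push_cast; ring
    rw [h2, Complex.normSq_add_mul_I]
    have := Real.sin_sq_add_cos_sq y
    linear_combination (Real.exp (-x)) ^ 2 * this
  have hnw : ‖(1 + τ * Complex.I : ℂ)‖ ^ 2 = 1 + τ ^ 2 := by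
    rw [← Complex.normSq_eq_norm_sq]
    have : (1 + τ * Complex.I : ℂ) = ((1 : ℝ) : ℂ) + (τ : ℂ) * Complex.I := by push_cast; ring
    rw [this, Complex.normSq_add_mul_I]
    ring
  -- real estimates
  have he1 : x / 2 ≤ 1 - Real.exp (-x) := by
    have h3 : Real.exp (-x) ≤ 1 / (1 + x) := by
      rw [Real.exp_neg, ← one_div]
      apply one_div_le_one_div_of_le (by linarith)
      linarith [Real.add_one_le_exp x]
    have h4 : 1 / (1 + x) ≤ 1 - x / 2 := by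
      rw [div_le_iff₀ (by linarith)]
      nlinarith
    linarith
  have he2 : (1 / 3 : ℝ) ≤ Real.exp (-x) := by
    have h5 : Real.exp (-1) ≤ Real.exp (-x) := Real.exp_le_exp.2 (by linarith)
    have h6 : (1 / 3 : ℝ) ≤ Real.exp (-1) := by
      rw [Real.exp_neg, ← one_div]
      apply one_div_le_one_div_of_le (Real.exp_pos 1)
      have := Real.exp_one_lt_d9
      linarith
    linarith
  have hc : 2 / Real.pi ^ 2 * y ^ 2 ≤ 1 - Real.cos y := by
    have := Real.cos_le_one_sub_mul_cos_sq hyabs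
    linarith
  have hpi : Real.pi ^ 2 ≤ 12 := by
    have h7 := Real.pi_lt_d2
    have h8 := Real.pi_pos
    nlinarith
  have hc2 : (1 / 6 : ℝ) * y ^ 2 ≤ 1 - Real.cos y := by
    have h9 : (1 / 6 : ℝ) ≤ 2 / Real.pi ^ 2 := by
      rw [le_div_iff₀ (by positivity)]
      linarith
    nlinarith [sq_nonneg y]
  have hmain : ((‖(1 + τ * Complex.I : ℂ)‖ / (3 * n)) ^ 2) ≤
      ‖1 - Complex.exp (-((1 + τ * Complex.I : ℂ) / n))‖ ^ 2 := by
    rw [hsq, div_pow, hnw]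
    have h10 : (1 + τ ^ 2) / (3 * (n : ℝ)) ^ 2 = (x ^ 2 + y ^ 2) / 9 := by
      rw [hx, hy]
      field_simp
      ring
    rw [h10]
    have h11 : (x / 2) ^ 2 ≤ (1 - Real.exp (-x)) ^ 2 := by
      apply pow_le_pow_left₀ (by linarith) he1
    have h12 : 2 * (1 / 3 : ℝ) * ((1 / 6 : ℝ) * y ^ 2) ≤
        2 * Real.exp (-x) * (1 - Real.cos y) := by
      apply mul_le_mul _ hc2 (by positivity) (by positivity)
      linarith
    nlinarith [sq_nonneg x, sq_nonneg y]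
  exact le_of_sq_le_sq hmain (norm_nonneg _)

/-- the hypotheses on one sequence -/
def XHyp (rho C : ℝ) (a : ℕ → ℝ) : Prop := ∀ z : ℂ, ‖z‖ < rho →
    (∀ j, Summable fun m : ℕ => ‖((m : ℂ)) ^ j * ((a m : ℝ) : ℂ) * z ^ m‖) ∧
    ‖sgf 2 a z‖ * (‖(rho : ℂ) - z‖ * Real.sqrt ‖(rho : ℂ) - z‖) ≤ C ∧
    ‖sgf 3 a z‖ * (‖(rho : ℂ) - z‖ ^ 2 * Real.sqrt ‖(rho : ℂ) - z‖) ≤ C

lemma XHyp.sumHyp {rho C : ℝ} {a : ℕ → ℝ} (h : XHyp rho C a) : SumHyp rho a :=
  fun z hz j => (h z hz).1 j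

lemma XHyp.C_nonneg {rho C : ℝ} (hrho : 0 < rho) {a : ℕ → ℝ} (h : XHyp rho C a) : 0 ≤ C := by
  have := (h 0 (by simpa using hrho)).2.1
  exact le_trans (by positivity) this

lemma norm_rho_sub_ge {rho : ℝ} (hrho : 0 < rho) {n : ℕ} (hn : 1 ≤ n) {u : ℂ}
    (hu : 1 / 2 ≤ u.re) : rho / 3 / n ≤ ‖(rho : ℂ) - zn rho u n‖ := by
  have hn' : (0 : ℝ) < n := by exact_mod_cast hn
  have hn1 : (1 : ℝ) ≤ n := by exact_mod_cast hn
  have h1 : rho - ‖zn rho u n‖ ≤ ‖(rho : ℂ) - zn rho u n‖ := by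
    have := norm_sub_norm_le (rho : ℂ) (zn rho u n)
    rw [Complex.norm_real, Real.norm_eq_abs, abs_of_pos hrho] at this
    exact this
  refine le_trans ?_ h1
  rw [norm_zn hrho]
  set x : ℝ := u.re / n with hx
  have hx0 : 1 / (2 * n) ≤ x := by
    rw [hx, div_le_div_iff₀ (by positivity) hn']
    nlinarith
  have hx1 : 1 / (2 * (n : ℝ)) ≤ 1 / 2 := by
    rw [div_le_div_iff₀ (by positivity) (by norm_num)]
    linarith
  have h3 : Real.exp (-x) ≤ 1 / (1 + 1 / (2 * n)) := by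
    rw [Real.exp_neg, ← one_div]
    apply one_div_le_one_div_of_le (by positivity)
    linarith [Real.add_one_le_exp x]
  have h4 : 1 / (1 + 1 / (2 * (n : ℝ))) ≤ 1 - 1 / 3 / n := by
    have h5 : (1 : ℝ) / 3 / n = (2 / 3) * (1 / (2 * n)) := by field_simp
    rw [h5]
    have hpos : 0 < 1 / (2 * (n : ℝ)) := by positivity
    rw [div_le_iff₀ (by positivity)]
    nlinarith
  have h6 : Real.exp (-x) ≤ 1 - 1 / 3 / n := h3.trans h4
  have h7 : rho / 3 / n = rho * (1 / 3 / n) := by ring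
  rw [h7]
  nlinarith

lemma norm_rho_sub_ge' {rho : ℝ} (hrho : 0 < rho) {n : ℕ} (hn : 1 ≤ n) {τ : ℝ}
    (hτ : |τ| ≤ Real.pi * n) : rho / 3 / n * ‖(1 + τ * Complex.I : ℂ)‖ ≤
      ‖(rho : ℂ) - zn rho (1 + τ * Complex.I) n‖ := by
  have h1 := norm_one_sub_exp_ge hn hτ
  have h2 : (rho : ℂ) - zn rho (1 + τ * Complex.I) n =
      (rho : ℂ) * (1 - Complex.exp (-((1 + τ * Complex.I : ℂ) / n))) := by
    unfold zn; ring
  rw [h2, norm_mul, Complex.norm_real, Real.norm_eq_abs, abs_of_pos hrho]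
  calc rho / 3 / n * ‖(1 + τ * Complex.I : ℂ)‖ = rho * (‖(1 + τ * Complex.I : ℂ)‖ / (3 * n)) := by
        rw [div_div, div_mul_eq_mul_div, mul_div_assoc]
    _ ≤ _ := mul_le_mul_of_nonneg_left h1 hrho.le

lemma tq_div {x y : ℝ} (hx : 0 ≤ x) (hy : 0 < y) : tq (x / y) = tq x / tq y := by
  rw [eq_div_iff (tq_pos hy).ne', ← tq_mul (by positivity) hy.le, div_mul_cancel₀ _ hy.ne']

/-- bound of the second marked series -/
lemma sgf2_le {rho C : ℝ} (hrho : 0 < rho) {a : ℕ → ℝ} (h : XHyp rho C a) {n : ℕ} (hn : 1 ≤ n)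
    {u : ℂ} (hu : 0 < u.re) {s : ℝ} (hs : 0 < s) (hd : rho / 3 / n * s ≤ ‖(rho : ℂ) - zn rho u n‖) :
    (tq n)⁻¹ * ‖sgf 2 a (zn rho u n)‖ ≤ C / tq (rho / 3) * (tq s)⁻¹ := by
  have hn' : (0 : ℝ) < n := by exact_mod_cast hn
  have h1 := (h _ (norm_zn_lt hrho hu hn)).2.1
  have hd0 : 0 < rho / 3 / n * s := by positivity
  have h2 : tq (rho / 3 / n * s) ≤ ‖(rho : ℂ) - zn rho u n‖ * √‖(rho : ℂ) - zn rho u n‖ :=
    tq_mono hd0.le hd
  have h3 : ‖sgf 2 a (zn rho u n)‖ * tq (rho / 3 / n * s) ≤ C :=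
    (mul_le_mul_of_nonneg_left h2 (norm_nonneg _)).trans h1
  rw [tq_mul (by positivity) hs.le, tq_div (by positivity) hn'] at h3
  have ha : 0 < tq (rho / 3) := tq_pos (by positivity)
  have hb : 0 < tq (n : ℝ) := tq_pos hn'
  have hc : 0 < tq s := tq_pos hs
  rw [← div_eq_mul_inv, div_div, le_div_iff₀ (by positivity)]
  calc (tq n)⁻¹ * ‖sgf 2 a (zn rho u n)‖ * (tq (rho / 3) * tq s) =
      ‖sgf 2 a (zn rho u n)‖ * (tq (rho / 3) / tq n * tq s) := by
        rw [div_eq_mul_inv]; ring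
    _ ≤ C := h3

/-- bound of the third marked series -/
lemma sgf3_le {rho C : ℝ} (hrho : 0 < rho) {a : ℕ → ℝ} (h : XHyp rho C a) {n : ℕ} (hn : 1 ≤ n)
    {u : ℂ} (hu : 1 / 2 ≤ u.re) :
    (tq n)⁻¹ / n * ‖sgf 3 a (zn rho u n)‖ ≤ C / (tq (rho / 3) * (rho / 3)) := by
  have hn' : (0 : ℝ) < n := by exact_mod_cast hn
  have h1 := (h _ (norm_zn_lt hrho (by linarith : 0 < u.re) hn)).2.2
  have hd := norm_rho_sub_ge hrho hn hu
  have hd0 : 0 < rho / 3 / n := by positivity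
  have h2 : tq (rho / 3 / n) * (rho / 3 / n) ≤
      ‖(rho : ℂ) - zn rho u n‖ ^ 2 * √‖(rho : ℂ) - zn rho u n‖ := by
    have h4 := mul_le_mul (tq_mono hd0.le hd) hd hd0.le (tq_nonneg (norm_nonneg _))
    calc _ ≤ _ := h4
      _ = _ := by unfold tq; ring
  have h3 : ‖sgf 3 a (zn rho u n)‖ * (tq (rho / 3 / n) * (rho / 3 / n)) ≤ C :=
    (mul_le_mul_of_nonneg_left h2 (norm_nonneg _)).trans h1
  rw [tq_div (by positivity) hn'] at h3
  have ha : 0 < tq (rho / 3) := tq_pos (by positivity)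
  have hb : 0 < tq (n : ℝ) := tq_pos hn'
  rw [le_div_iff₀ (by positivity)]
  calc (tq n)⁻¹ / n * ‖sgf 3 a (zn rho u n)‖ * (tq (rho / 3) * (rho / 3)) =
      ‖sgf 3 a (zn rho u n)‖ * (tq (rho / 3) / tq n * (rho / 3 / n)) := by
        rw [div_eq_mul_inv (tq (rho / 3)) (tq n)]; ring
    _ ≤ C := h3

lemma tq_norm_eq (τ : ℝ) : (tq ‖(1 + τ * Complex.I : ℂ)‖)⁻¹ =
    ((1 : ℝ) + ‖τ‖ ^ 2) ^ (-(3 / 2 : ℝ) / 2) := by
  have hnw : ‖(1 + τ * Complex.I : ℂ)‖ = √(1 + ‖τ‖ ^ 2) := by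
    rw [← Real.sqrt_sq (norm_nonneg (1 + τ * Complex.I : ℂ)), ← Complex.normSq_eq_norm_sq]
    have : (1 + τ * Complex.I : ℂ) = ((1 : ℝ) : ℂ) + (τ : ℂ) * Complex.I := by push_cast; ring
    rw [this, Complex.normSq_add_mul_I, Real.norm_eq_abs, sq_abs]
    norm_num
  have hpos : (0 : ℝ) < 1 + ‖τ‖ ^ 2 := by positivity
  rw [hnw]
  unfold tq
  rw [Real.sqrt_eq_rpow, Real.sqrt_eq_rpow, ← Real.rpow_mul hpos.le, ← Real.rpow_add hpos,
    ← Real.rpow_neg hpos.le]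
  norm_num

/-- domination of the integrand -/
lemma norm_gN_le {rho C : ℝ} (hrho : 0 < rho) {a : ℕ → ℝ} (h : XHyp rho C a) {n : ℕ} (hn : 1 ≤ n)
    (τ : ℝ) : ‖gN rho a n τ‖ ≤ C / tq (rho / 3) * ((1 : ℝ) + ‖τ‖ ^ 2) ^ (-(3 / 2 : ℝ) / 2) := by
  have hn' : (0 : ℝ) < n := by exact_mod_cast hn
  have hC := h.C_nonneg hrho
  have hq : 0 < tq (rho / 3) := tq_pos (by positivity)
  unfold gN
  rw [Set.indicator_apply]
  split_ifs with hτ
  · have hτ' : |τ| ≤ Real.pi * n := abs_le.2 ⟨hτ.1.le, hτ.2⟩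
    rw [norm_mul, Complex.norm_exp_ofReal_mul_I, mul_one, norm_mul, Complex.norm_real,
      Real.norm_eq_abs, abs_of_pos (inv_pos.2 (tq_pos hn')), ← tq_norm_eq]
    have hs : 0 < ‖(1 + τ * Complex.I : ℂ)‖ := by
      rw [norm_pos_iff]
      intro h0
      have := congrArg Complex.re h0
      simp at this
    exact sgf2_le hrho h hn (by simp) hs (norm_rho_sub_ge' hrho hn hτ')
  · rw [norm_zero]
    positivity

lemma integrable_bound (K : ℝ) :
    Integrable (fun τ : ℝ => K * ((1 : ℝ) + ‖τ‖ ^ 2) ^ (-(3 / 2 : ℝ) / 2)) := by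
  apply Integrable.const_mul
  exact integrable_rpow_neg_one_add_norm_sq (by rw [Module.finrank_self]; norm_num)

/-! ### Derivatives -/

/-- rescaled first marked series -/
noncomputable def D1 (rho : ℝ) (a : ℕ → ℝ) (n : ℕ) (u : ℂ) : ℂ :=
  sgf 1 a (zn rho u n) / ((Real.sqrt n : ℝ) : ℂ)

/-- rescaled second marked series -/
noncomputable def D2 (rho : ℝ) (a : ℕ → ℝ) (n : ℕ) (u : ℂ) : ℂ :=
  -(((tq n)⁻¹ : ℝ) : ℂ) * sgf 2 a (zn rho u n)

/-- rescaled third marked series -/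
noncomputable def D3 (rho : ℝ) (a : ℕ → ℝ) (n : ℕ) (u : ℂ) : ℂ :=
  (((tq n)⁻¹ / n : ℝ) : ℂ) * sgf 3 a (zn rho u n)

lemma hasDerivAt_D1 {rho : ℝ} (hrho : 0 < rho) {a : ℕ → ℝ} (ha : SumHyp rho a) {n : ℕ}
    (hn : 1 ≤ n) {u : ℂ} (hu : 0 < u.re) : HasDerivAt (D1 rho a n) (D2 rho a n u) u := by
  have h1 := (hasDerivAt_sgf hrho ha 1 hn hu).div_const ((Real.sqrt n : ℝ) : ℂ)
  have h2 : -(1 / (n : ℂ)) * sgf (1 + 1) a (zn rho u n) / ((Real.sqrt n : ℝ) : ℂ) =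
      D2 rho a n u := by
    unfold D2 tq
    push_cast
    rw [mul_inv]
    ring
  rw [← h2]
  exact h1

lemma hasDerivAt_D2 {rho : ℝ} (hrho : 0 < rho) {a : ℕ → ℝ} (ha : SumHyp rho a) {n : ℕ}
    (hn : 1 ≤ n) {u : ℂ} (hu : 0 < u.re) : HasDerivAt (D2 rho a n) (D3 rho a n u) u := by
  have h1 := (hasDerivAt_sgf hrho ha 2 hn hu).const_mul (-(((tq n)⁻¹ : ℝ) : ℂ))
  have h2 : -(((tq n)⁻¹ : ℝ) : ℂ) * (-(1 / (n : ℂ)) * sgf (2 + 1) a (zn rho u n)) =
      D3 rho a n u := by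
    unfold D3
    push_cast
    ring
  rw [← h2]
  exact h1

lemma norm_D3_le {rho C : ℝ} (hrho : 0 < rho) {a : ℕ → ℝ} (h : XHyp rho C a) {n : ℕ} (hn : 1 ≤ n)
    {u : ℂ} (hu : 1 / 2 ≤ u.re) : ‖D3 rho a n u‖ ≤ C / (tq (rho / 3) * (rho / 3)) := by
  have hn' : (0 : ℝ) < n := by exact_mod_cast hn
  unfold D3
  rw [norm_mul, Complex.norm_real, Real.norm_eq_abs,
    abs_of_pos (div_pos (inv_pos.2 (tq_pos hn')) hn')]
  exact sgf3_le hrho h hn hu

lemma norm_D2_le {rho C : ℝ} (hrho : 0 < rho) {a : ℕ → ℝ} (h : XHyp rho C a) {n : ℕ} (hn : 1 ≤ n)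
    {u : ℂ} (hu : 1 / 2 ≤ u.re) : ‖D2 rho a n u‖ ≤ C / tq (rho / 3) := by
  have hn' : (0 : ℝ) < n := by exact_mod_cast hn
  unfold D2
  rw [norm_mul, norm_neg, Complex.norm_real, Real.norm_eq_abs, abs_of_pos (inv_pos.2 (tq_pos hn'))]
  have := sgf2_le hrho h hn (by linarith : 0 < u.re) (s := 1) one_pos
    (by rw [mul_one]; exact norm_rho_sub_ge hrho hn hu)
  have h1 : tq 1 = 1 := by simp [tq]
  rw [h1] at this
  simpa using this

/-- pointwise convergence to zero passes to the derivative -/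
lemma deriv_tendsto {ι : Type*} {l : Filter ι} {f f' f'' : ι → ℂ → ℂ} {w : ℂ} {K : ℝ}
    (h1 : ∀ᶠ i in l, ∀ u ∈ Metric.closedBall w (1 / 2), HasDerivAt (f i) (f' i u) u)
    (h2 : ∀ᶠ i in l, ∀ u ∈ Metric.closedBall w (1 / 2), HasDerivAt (f' i) (f'' i u) u)
    (h3 : ∀ᶠ i in l, ∀ u ∈ Metric.closedBall w (1 / 2), ‖f'' i u‖ ≤ K)
    (h0 : ∀ u ∈ Metric.closedBall w (1 / 2), Tendsto (fun i => f i u) l (𝓝 0)) :
    Tendsto (fun i => f' i w) l (𝓝 0) := by
  rw [Metric.tendsto_nhds]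
  intro ε hε
  set K' : ℝ := max K 0 + 1 with hK'
  have hK'pos : 0 < K' := by positivity
  set h : ℝ := min (1 / 2) (ε / (4 * K')) with hh
  have hhpos : 0 < h := by positivity
  have hh2 : h ≤ 1 / 2 := min_le_left _ _
  have hhK : K' * h ≤ ε / 4 := by
    calc K' * h ≤ K' * (ε / (4 * K')) := by gcongr; exact min_le_right _ _
      _ = ε / 4 := by field_simp
  have hwh : w + (h : ℂ) ∈ Metric.closedBall w (1 / 2) := by
    rw [Metric.mem_closedBall, dist_eq_norm, add_sub_cancel_left, Complex.norm_real,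
      Real.norm_eq_abs, abs_of_pos hhpos]
    exact hh2
  have hww : w ∈ Metric.closedBall w (1 / 2) := Metric.mem_closedBall_self (by norm_num)
  have e1 := (Metric.tendsto_nhds.1 (h0 _ hwh)) (ε * h / 4) (by positivity)
  have e2 := (Metric.tendsto_nhds.1 (h0 _ hww)) (ε * h / 4) (by positivity)
  filter_upwards [h1, h2, h3, e1, e2] with i hi1 hi2 hi3 hi4 hi5
  rw [dist_zero_right] at hi4 hi5 ⊢
  have hsub : Metric.closedBall w h ⊆ Metric.closedBall w (1 / 2) :=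
    Metric.closedBall_subset_closedBall hh2
  have hwh' : w + (h : ℂ) ∈ Metric.closedBall w h := by
    rw [Metric.mem_closedBall, dist_eq_norm, add_sub_cancel_left, Complex.norm_real,
      Real.norm_eq_abs, abs_of_pos hhpos]
  have hww' : w ∈ Metric.closedBall w h := Metric.mem_closedBall_self hhpos.le
  have hconv : Convex ℝ (Metric.closedBall w h) := convex_closedBall w h
  have step1 : ∀ u ∈ Metric.closedBall w h, ‖f' i u - f' i w‖ ≤ K' * h := by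
    intro u hu
    have := hconv.norm_image_sub_le_of_norm_hasDerivWithin_le (f := f' i) (f' := f'' i) (C := K')
      (fun x hx => (hi2 x (hsub hx)).hasDerivWithinAt)
      (fun x hx => (hi3 x (hsub hx)).trans (by rw [hK']; have := le_max_left K 0; linarith))
      hww' hu
    refine this.trans ?_
    have hu' : ‖u - w‖ ≤ h := by rwa [Metric.mem_closedBall, dist_eq_norm] at hu
    gcongr
  have step2 : ‖(f i (w + h) - (w + h) * f' i w) - (f i w - w * f' i w)‖ ≤ K' * h * h := by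
    have := hconv.norm_image_sub_le_of_norm_hasDerivWithin_le
      (f := fun u => f i u - u * f' i w) (f' := fun u => f' i u - f' i w) (C := K' * h)
      (fun x hx => by
        have a1 := (hi1 x (hsub hx)).sub ((hasDerivAt_id x).mul_const (f' i w))
        rw [one_mul] at a1
        exact a1.hasDerivWithinAt)
      step1 hww' hwh'
    refine this.trans ?_
    rw [add_sub_cancel_left, Complex.norm_real, Real.norm_eq_abs, abs_of_pos hhpos]
  have step3 : ‖(h : ℂ) * f' i w‖ ≤ ‖f i (w + h)‖ + ‖f i w‖ + K' * h * h := by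
    have e : (h : ℂ) * f' i w = f i (w + h) - f i w -
        ((f i (w + h) - (w + h) * f' i w) - (f i w - w * f' i w)) := by ring
    rw [e]
    refine (norm_sub_le _ _).trans ?_
    have := norm_sub_le (f i (w + h)) (f i w)
    linarith
  rw [norm_mul, Complex.norm_real, Real.norm_eq_abs, abs_of_pos hhpos] at step3
  have h5 : K' * h * h ≤ ε / 4 * h := mul_le_mul_of_nonneg_right hhK hhpos.le
  have h6 : h * ‖f' i w‖ < h * ε := by nlinarith
  exact lt_of_mul_lt_mul_left h6 hhpos.le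

end Pool.Agent.Gap
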