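import Mathlib
import Pool.Agent.Lib_helper84.Gap.XLim

/-!
# Module X : coefficient extraction and dominated convergence
-/

set_option autoImplicit false

open Finset Filter Topology MeasureTheory

namespace Pool.Agent.Gap

lemma ball_re {w u : ℂ} (hw : w.re = 1) (hu : u ∈ Metric.closedBall w (1 / 2)) :
    1 / 2 ≤ u.re := by
  rw [Metric.mem_closedBall, dist_eq_norm] at hu
  have h1 : |(u - w).re| ≤ ‖u - w‖ := Complex.abs_re_le_norm _
  have h2 := (abs_le.1 (h1.trans hu)).1
  rw [Complex.sub_re, hw] at h2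
  linarith

lemma gN_eq_D2 {rho : ℝ} {a : ℕ → ℝ} {n : ℕ} {τ : ℝ} (hτ : |τ| < Real.pi * n) :
    gN rho a n τ = -(D2 rho a n (1 + τ * Complex.I)) * Complex.exp (τ * Complex.I) := by
  unfold gN D2
  rw [Set.indicator_of_mem]
  · ring
  · exact ⟨(abs_lt.1 hτ).1, (abs_lt.1 hτ).2.le⟩

theorem X : X_Stmt := by
  intro rho rho' β c C n0 a a' hrho hrho' hβ hn0 ha ha' hlim
  have hA : ∀ n, XHyp rho C (a n) := fun n z hz => ha n z hz
  have hA' : ∀ n, XHyp rho' C (a' n) := fun n z hz => ha' n z hz
  have hC : 0 ≤ C := (hA 0).C_nonneg hrho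
  -- eventually the scales are positive
  have hn1 : ∀ᶠ n : ℕ in atTop, 1 ≤ n := eventually_ge_atTop 1
  have hratio : ∀ᶠ n : ℕ in atTop, β / 2 < (n0 n : ℝ) / n :=
    hn0.eventually (lt_mem_nhds (by linarith))
  have hratio' : ∀ᶠ n : ℕ in atTop, (n0 n : ℝ) / n < β + 1 :=
    hn0.eventually (gt_mem_nhds (by linarith))
  have hn01 : ∀ᶠ n : ℕ in atTop, 1 ≤ n0 n := by
    filter_upwards [hn1, hratio] with n h1 h2
    by_contra h3
    have h4 : n0 n = 0 := by omega
    rw [h4] at h2
    simp at h2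
    linarith
  have hn0top : Tendsto (fun n : ℕ => (n0 n : ℝ)) atTop atTop := by
    have h1 : Tendsto (fun n : ℕ => (n0 n : ℝ) / n * n) atTop atTop :=
      hn0.pos_mul_atTop hβ tendsto_natCast_atTop_atTop
    refine h1.congr' ?_
    filter_upwards [hn1] with n h1
    have : (n : ℝ) ≠ 0 := by exact_mod_cast (by omega : n ≠ 0)
    field_simp
  set r : ℕ → ℝ := fun n => √(n0 n) / √n with hr
  have hrlim : Tendsto r atTop (𝓝 (√β)) := by
    have h1 := (Real.continuous_sqrt.tendsto β).comp hn0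
    refine h1.congr ?_
    intro n
    simp only [Function.comp, hr]
    rw [Real.sqrt_div' _ (Nat.cast_nonneg n)]
  have hrbd : ∀ᶠ n : ℕ in atTop, r n ≤ √β + 1 :=
    (hrlim.eventually (gt_mem_nhds (lt_add_one _))).mono fun n hn => hn.le
  have hr0 : ∀ n, 0 ≤ r n := fun n => by simp only [hr]; positivity
  -- the combination
  let f : ℕ → ℂ → ℂ := fun n u => D1 rho (a n) n u - ((c * r n : ℝ) : ℂ) * D1 rho' (a' n) (n0 n) u
  let f' : ℕ → ℂ → ℂ := fun n u =>
    D2 rho (a n) n u - ((c * r n : ℝ) : ℂ) * D2 rho' (a' n) (n0 n) u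
  let f'' : ℕ → ℂ → ℂ := fun n u =>
    D3 rho (a n) n u - ((c * r n : ℝ) : ℂ) * D3 rho' (a' n) (n0 n) u
  have hf0 : ∀ u : ℂ, 0 < u.re → Tendsto (fun n => f n u) atTop (𝓝 0) := by
    intro u hu
    refine (hlim u hu).congr' ?_
    filter_upwards [hn1, hn01] with n h1 h2
    simp only [f, D1, hr]
    have e1 : ((√(n0 n : ℝ) : ℝ) : ℂ) ≠ 0 := by
      rw [Complex.ofReal_ne_zero]
      have : (0 : ℝ) < n0 n := by exact_mod_cast h2
      exact (Real.sqrt_pos.2 this).ne'
    have e2 : ((√(n : ℝ) : ℝ) : ℂ) ≠ 0 := by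
      rw [Complex.ofReal_ne_zero]
      have : (0 : ℝ) < n := by exact_mod_cast h1
      exact (Real.sqrt_pos.2 this).ne'
    push_cast
    field_simp
  -- the derivative tends to zero
  have hf' : ∀ τ : ℝ, Tendsto (fun n => f' n (1 + τ * Complex.I)) atTop (𝓝 0) := by
    intro τ
    have hw : (1 + τ * Complex.I : ℂ).re = 1 := by simp
    apply deriv_tendsto (f := f) (f' := f') (f'' := f'')
      (K := C / (tq (rho / 3) * (rho / 3)) +
        |c| * (√β + 1) * (C / (tq (rho' / 3) * (rho' / 3))))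
    · filter_upwards [hn1, hn01] with n h1 h2 u hu
      have hu' := ball_re hw hu
      have hu0 : 0 < u.re := by linarith
      exact (hasDerivAt_D1 hrho (hA n).sumHyp h1 hu0).sub
        ((hasDerivAt_D1 hrho' (hA' n).sumHyp h2 hu0).const_mul _)
    · filter_upwards [hn1, hn01] with n h1 h2 u hu
      have hu' := ball_re hw hu
      have hu0 : 0 < u.re := by linarith
      exact (hasDerivAt_D2 hrho (hA n).sumHyp h1 hu0).sub
        ((hasDerivAt_D2 hrho' (hA' n).sumHyp h2 hu0).const_mul _)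
    · filter_upwards [hn1, hn01, hrbd] with n h1 h2 h3 u hu
      have hu' := ball_re hw hu
      have b1 := norm_D3_le hrho (hA n) h1 hu'
      have b2 := norm_D3_le hrho' (hA' n) h2 hu'
      simp only [f'']
      refine (norm_sub_le _ _).trans ?_
      rw [norm_mul, Complex.norm_real, Real.norm_eq_abs, abs_mul, abs_of_nonneg (hr0 n)]
      have hK' : 0 ≤ C / (tq (rho' / 3) * (rho' / 3)) := (norm_nonneg _).trans b2
      gcongr
    · intro u hu
      have hu' := ball_re hw hu
      exact hf0 u (by linarith)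
  -- replace the ratio by its limit
  have hg' : ∀ τ : ℝ, Tendsto (fun n => D2 rho (a n) n (1 + τ * Complex.I) -
      ((c * √β : ℝ) : ℂ) * D2 rho' (a' n) (n0 n) (1 + τ * Complex.I)) atTop (𝓝 0) := by
    intro τ
    have hw : (1 + τ * Complex.I : ℂ).re = 1 := by simp
    have h1 : Tendsto (fun n => ((c * r n - c * √β : ℝ) : ℂ) *
        D2 rho' (a' n) (n0 n) (1 + τ * Complex.I)) atTop (𝓝 0) := by
      apply squeeze_zero_norm' (a := fun n => |c * r n - c * √β| * (C / tq (rho' / 3)))
      · filter_upwards [hn01] with n h2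
        rw [norm_mul, Complex.norm_real, Real.norm_eq_abs]
        gcongr
        exact norm_D2_le hrho' (hA' n) h2 (by rw [hw]; norm_num)
      · have h3 : Tendsto (fun n => c * r n - c * √β) atTop (𝓝 0) := by
          have := (hrlim.const_mul c).sub_const (c * √β)
          simpa using this
        have h4 := (h3.abs).mul_const (C / tq (rho' / 3))
        simpa using h4
    have h2 := (hf' τ).add h1
    rw [add_zero] at h2
    refine h2.congr ?_
    intro n
    simp only [f']
    push_cast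
    ring
  -- pointwise convergence of the integrands
  have hpt : ∀ τ : ℝ, Tendsto (fun n => gN rho (a n) n τ -
      ((c * √β : ℝ) : ℂ) * gN rho' (a' n) (n0 n) τ) atTop (𝓝 0) := by
    intro τ
    have h1 := ((hg' τ).mul_const (-(Complex.exp (τ * Complex.I))))
    rw [zero_mul] at h1
    refine h1.congr' ?_
    have hbig : ∀ᶠ n : ℕ in atTop, |τ| < Real.pi * n :=
      (Tendsto.const_mul_atTop Real.pi_pos tendsto_natCast_atTop_atTop).eventually
        (eventually_gt_atTop _)
    have hbig' : ∀ᶠ n : ℕ in atTop, |τ| < Real.pi * (n0 n) :=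
      (Tendsto.const_mul_atTop Real.pi_pos hn0top).eventually (eventually_gt_atTop _)
    filter_upwards [hbig, hbig'] with n h2 h3
    rw [gN_eq_D2 h2, gN_eq_D2 h3]
    ring
  -- dominated convergence
  have hint : Tendsto (fun n => ∫ τ : ℝ, (gN rho (a n) n τ -
      ((c * √β : ℝ) : ℂ) * gN rho' (a' n) (n0 n) τ)) atTop (𝓝 (∫ _τ : ℝ, (0 : ℂ))) := by
    apply tendsto_integral_filter_of_dominated_convergence
      (fun τ : ℝ => (C / tq (rho / 3) + |c * √β| * (C / tq (rho' / 3))) *
        ((1 : ℝ) + ‖τ‖ ^ 2) ^ (-(3 / 2 : ℝ) / 2))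
    · filter_upwards [hn1, hn01] with n h1 h2
      exact (aesm_gN hrho (hA n).sumHyp h1).sub
        ((aesm_gN hrho' (hA' n).sumHyp h2).const_mul _)
    · filter_upwards [hn1, hn01] with n h1 h2
      refine Eventually.of_forall fun τ => ?_
      refine (norm_sub_le _ _).trans ?_
      rw [norm_mul, Complex.norm_real, Real.norm_eq_abs, add_mul, mul_assoc]
      exact add_le_add (norm_gN_le hrho (hA n) h1 τ)
        (mul_le_mul_of_nonneg_left (norm_gN_le hrho' (hA' n) h2 τ) (abs_nonneg _))
    · exact integrable_bound _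
    · exact Eventually.of_forall hpt
  rw [integral_zero] at hint
  -- evaluate the integrals
  have hval : ∀ᶠ n : ℕ in atTop, ∫ τ : ℝ, (gN rho (a n) n τ -
      ((c * √β : ℝ) : ℂ) * gN rho' (a' n) (n0 n) τ) =
      (((tq n * rho ^ n * a n n - c * √β * (tq (n0 n) * rho' ^ (n0 n) * a' n (n0 n))) : ℝ) : ℂ) *
        (2 * Real.pi * Complex.exp (-1)) := by
    filter_upwards [hn1, hn01] with n h1 h2
    have i1 : Integrable (fun τ => gN rho (a n) n τ) :=
      (integrable_bound (C / tq (rho / 3))).mono' (aesm_gN hrho (hA n).sumHyp h1)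
        (Eventually.of_forall fun τ => norm_gN_le hrho (hA n) h1 τ)
    have i2 : Integrable (fun τ => gN rho' (a' n) (n0 n) τ) :=
      (integrable_bound (C / tq (rho' / 3))).mono' (aesm_gN hrho' (hA' n).sumHyp h2)
        (Eventually.of_forall fun τ => norm_gN_le hrho' (hA' n) h2 τ)
    rw [integral_sub i1 (i2.const_mul _), integral_const_mul, extract hrho (hA n).sumHyp h1,
      extract hrho' (hA' n).sumHyp h2]
    push_cast
    ring
  have hfin : Tendsto (fun n : ℕ => (((tq n * rho ^ n * a n n -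
      c * √β * (tq (n0 n) * rho' ^ (n0 n) * a' n (n0 n))) : ℝ) : ℂ)) atTop (𝓝 0) := by
    have hne : (2 * Real.pi * Complex.exp (-1) : ℂ) ≠ 0 := by
      apply mul_ne_zero _ (Complex.exp_ne_zero _)
      have : (Real.pi : ℂ) ≠ 0 := by exact_mod_cast Real.pi_ne_zero
      exact mul_ne_zero two_ne_zero this
    have h1 := (hint.congr' hval).mul_const (2 * Real.pi * Complex.exp (-1) : ℂ)⁻¹
    rw [zero_mul] at h1
    refine h1.congr ?_
    intro n
    rw [mul_assoc, mul_inv_cancel₀ hne, mul_one]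
  have h5 := (Complex.continuous_re.tendsto 0).comp hfin
  rw [Complex.zero_re] at h5
  refine h5.congr ?_
  intro n
  simp only [Function.comp, Complex.ofReal_re, tq]

end Pool.Agent.Gap
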