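import Mathlib
import Pool.Agent.Lib_helper84.Gap.X

/-!
# Module X1 : existence of the limit of the diagonal coefficients
-/

set_option autoImplicit false

open Finset Filter Topology MeasureTheory

namespace Pool.Agent.Gap

/-- pointwise convergence passes to the derivative -/
lemma deriv_converges {f f' f'' : ℕ → ℂ → ℂ} {w : ℂ} {K : ℝ}
    (h1 : ∀ i : ℕ, 1 ≤ i → ∀ u ∈ Metric.closedBall w (1 / 2), HasDerivAt (f i) (f' i u) u)
    (h2 : ∀ i : ℕ, 1 ≤ i → ∀ u ∈ Metric.closedBall w (1 / 2), HasDerivAt (f' i) (f'' i u) u)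
    (h3 : ∀ i : ℕ, 1 ≤ i → ∀ u ∈ Metric.closedBall w (1 / 2), ‖f'' i u‖ ≤ K)
    (h0 : ∀ u ∈ Metric.closedBall w (1 / 2), ∃ l : ℂ, Tendsto (fun i => f i u) atTop (𝓝 l)) :
    ∃ l : ℂ, Tendsto (fun i => f' i w) atTop (𝓝 l) := by
  have hev1 : ∀ᶠ p : ℕ × ℕ in atTop ×ˢ atTop, 1 ≤ p.1 ∧ 1 ≤ p.2 := by
    rw [prod_atTop_atTop_eq]
    filter_upwards [eventually_ge_atTop ((1, 1) : ℕ × ℕ)] with p hp
    exact ⟨hp.1, hp.2⟩
  have key : Tendsto (fun p : ℕ × ℕ => f' p.1 w - f' p.2 w) (atTop ×ˢ atTop) (𝓝 0) := by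
    apply deriv_tendsto (f := fun (p : ℕ × ℕ) u => f p.1 u - f p.2 u)
      (f' := fun (p : ℕ × ℕ) u => f' p.1 u - f' p.2 u)
      (f'' := fun (p : ℕ × ℕ) u => f'' p.1 u - f'' p.2 u) (K := K + K)
    · filter_upwards [hev1] with p hp u hu
      exact (h1 _ hp.1 u hu).sub (h1 _ hp.2 u hu)
    · filter_upwards [hev1] with p hp u hu
      exact (h2 _ hp.1 u hu).sub (h2 _ hp.2 u hu)
    · filter_upwards [hev1] with p hp u hu
      exact (norm_sub_le _ _).trans (add_le_add (h3 _ hp.1 u hu) (h3 _ hp.2 u hu))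
    · intro u hu
      obtain ⟨l, hl⟩ := h0 u hu
      have := (hl.comp tendsto_fst).sub (hl.comp (tendsto_snd (f := (atTop : Filter ℕ))))
      rw [sub_self] at this
      exact this
  have hcau : CauchySeq fun i => f' i w := by
    rw [cauchySeq_iff_tendsto_dist_atTop_0, ← prod_atTop_atTop_eq]
    have := key.norm
    rw [norm_zero] at this
    refine this.congr ?_
    intro p
    rw [dist_eq_norm]
  exact cauchySeq_tendsto_of_complete hcau

theorem X1 : X1_Stmt := by
  intro rho C a hrho ha hlim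
  have hA : ∀ n, XHyp rho C (a n) := fun n z hz => ha n z hz
  have hn1 : ∀ᶠ n : ℕ in atTop, 1 ≤ n := eventually_ge_atTop 1
  have hf' : ∀ τ : ℝ, ∃ l : ℂ, Tendsto (fun n => D2 rho (a n) n (1 + τ * Complex.I)) atTop
      (𝓝 l) := by
    intro τ
    have hw : (1 + τ * Complex.I : ℂ).re = 1 := by simp
    apply deriv_converges (f := fun n => D1 rho (a n) n) (f' := fun n => D2 rho (a n) n)
      (f'' := fun n => D3 rho (a n) n) (K := C / (tq (rho / 3) * (rho / 3)))
    · intro n h1 u hu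
      have hu' := ball_re hw hu
      exact hasDerivAt_D1 hrho (hA n).sumHyp h1 (by linarith)
    · intro n h1 u hu
      have hu' := ball_re hw hu
      exact hasDerivAt_D2 hrho (hA n).sumHyp h1 (by linarith)
    · intro n h1 u hu
      exact norm_D3_le hrho (hA n) h1 (ball_re hw hu)
    · intro u hu
      have hu' := ball_re hw hu
      exact hlim u (by linarith)
  choose g hg using hf'
  have hpt : ∀ τ : ℝ, Tendsto (fun n => gN rho (a n) n τ) atTop
      (𝓝 (-(g τ) * Complex.exp (τ * Complex.I))) := by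
    intro τ
    have h1 := ((hg τ).neg.mul_const (Complex.exp (τ * Complex.I)))
    refine h1.congr' ?_
    have hbig : ∀ᶠ n : ℕ in atTop, |τ| < Real.pi * n :=
      (Tendsto.const_mul_atTop Real.pi_pos tendsto_natCast_atTop_atTop).eventually
        (eventually_gt_atTop _)
    filter_upwards [hbig] with n h2
    rw [gN_eq_D2 h2]
  have hint : Tendsto (fun n => ∫ τ : ℝ, gN rho (a n) n τ) atTop
      (𝓝 (∫ τ : ℝ, -(g τ) * Complex.exp (τ * Complex.I))) := by
    apply tendsto_integral_filter_of_dominated_convergence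
      (fun τ : ℝ => (C / tq (rho / 3)) * ((1 : ℝ) + ‖τ‖ ^ 2) ^ (-(3 / 2 : ℝ) / 2))
    · filter_upwards [hn1] with n h1
      exact aesm_gN hrho (hA n).sumHyp h1
    · filter_upwards [hn1] with n h1
      exact Eventually.of_forall fun τ => norm_gN_le hrho (hA n) h1 τ
    · exact integrable_bound _
    · exact Eventually.of_forall hpt
  set J : ℂ := ∫ τ : ℝ, -(g τ) * Complex.exp (τ * Complex.I) with hJ
  refine ⟨(J * (2 * Real.pi * Complex.exp (-1) : ℂ)⁻¹).re, ?_⟩
  have hval : ∀ᶠ n : ℕ in atTop, ∫ τ : ℝ, gN rho (a n) n τ =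
      (((tq n * rho ^ n * a n n) : ℝ) : ℂ) * (2 * Real.pi * Complex.exp (-1)) := by
    filter_upwards [hn1] with n h1
    rw [extract hrho (hA n).sumHyp h1]
    push_cast
    ring
  have hne : (2 * Real.pi * Complex.exp (-1) : ℂ) ≠ 0 := by
    apply mul_ne_zero _ (Complex.exp_ne_zero _)
    have : (Real.pi : ℂ) ≠ 0 := by exact_mod_cast Real.pi_ne_zero
    exact mul_ne_zero two_ne_zero this
  have hfin : Tendsto (fun n : ℕ => (((tq n * rho ^ n * a n n) : ℝ) : ℂ)) atTop
      (𝓝 (J * (2 * Real.pi * Complex.exp (-1) : ℂ)⁻¹)) := by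
    have h1 := (hint.congr' hval).mul_const (2 * Real.pi * Complex.exp (-1) : ℂ)⁻¹
    refine h1.congr ?_
    intro n
    rw [mul_assoc, mul_inv_cancel₀ hne, mul_one]
  have h5 := (Complex.continuous_re.tendsto _).comp hfin
  refine h5.congr ?_
  intro n
  simp only [Function.comp, Complex.ofReal_re, tq]

end Pool.Agent.Gap
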